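import Pool.Agent.Helper25.FB.Spec

/-!
# FB, part CJ: conjugation
-/

set_option autoImplicit false

namespace Pool.Agent.Helper57.FB

open Pool.Agent.Helper25.FB Pool.Agent.Helper25.FB.Inj

theorem conj_circleMap0 (R θ : ℝ) :
    (starRingEnd ℂ) (circleMap 0 R θ) = circleMap 0 R (-θ) := by
  rw [conj_circleMap_zero]

theorem periodic_integral_neg (g : ℝ → ℂ) (hg : Function.Periodic g (2 * Real.pi)) :
    ∫ θ in (0 : ℝ)..(2 * Real.pi), g (-θ) = ∫ θ in (0 : ℝ)..(2 * Real.pi), g θ := by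
  rw [intervalIntegral.integral_comp_neg]
  have h := hg.intervalIntegral_add_eq (-(2 * Real.pi)) 0
  rw [neg_add_cancel, zero_add] at h
  rw [neg_zero, h]

theorem conj_Lc (R : ℝ) (φ : ℂ → ℂ) (n : ℤ) :
    (starRingEnd ℂ) (Lc R φ n) = Lc R (fun s => (starRingEnd ℂ) (φ ((starRingEnd ℂ) s))) n := by
  unfold Lc
  rw [map_mul]
  have h1 : (starRingEnd ℂ) ((2 * (Real.pi : ℂ) * Complex.I)⁻¹) =
      -((2 * (Real.pi : ℂ) * Complex.I)⁻¹) := by
    rw [map_inv₀, map_mul, map_mul, Complex.conj_I, Complex.conj_ofReal]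
    have : (starRingEnd ℂ) (2 : ℂ) = 2 := by
      rw [← Complex.ofReal_ofNat, Complex.conj_ofReal]
    rw [this, mul_neg, inv_neg]
  have h2 : (starRingEnd ℂ) (∮ s in C(0, R), φ s * s ^ (-n - 1)) =
      -(∮ s in C(0, R), (starRingEnd ℂ) (φ ((starRingEnd ℂ) s)) * s ^ (-n - 1)) := by
    unfold circleIntegral
    rw [← intervalIntegral.intervalIntegral_conj]
    set g : ℝ → ℂ := fun θ => deriv (circleMap 0 R) θ •
      ((starRingEnd ℂ) (φ ((starRingEnd ℂ) (circleMap 0 R θ))) * (circleMap 0 R θ) ^ (-n - 1))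
      with hg
    have hper : Function.Periodic g (2 * Real.pi) := by
      intro θ
      simp only [hg, deriv_circleMap, periodic_circleMap 0 R θ]
    rw [← periodic_integral_neg g hper, ← intervalIntegral.integral_neg]
    congr 1
    funext θ
    simp only [hg, deriv_circleMap, smul_eq_mul, map_mul, map_zpow₀, Complex.conj_I,
      conj_circleMap0, neg_neg]
    ring
  rw [h1, h2]
  ring

/-- conjugation -/
theorem _root_.Pool.Agent.Helper25.FB.cj_thm : S_CJ := by
  intro P m E B hB x _ G hG hT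
  have hB0 : (0 : ℝ) < B := (inv_pos.2 E.r0).trans hB
  have hf : Entire (fun w : Fin 2 → ℂ => (starRingEnd ℂ) (G (fun i => (starRingEnd ℂ) (w i)))) :=
    conj_diff G hG
  have h0 := hT _ hf
  have h1 := congrArg (starRingEnd ℂ) h0
  rw [map_zero] at h1
  rw [← h1]
  unfold Tx
  rw [Complex.conj_tsum]
  refine tsum_congr fun k => ?_
  rw [map_mul, map_mul, conj_Lc, map_pow, Complex.conj_ofReal]
  congr 1
  have h2 : (fun s => (starRingEnd ℂ) ((starRingEnd ℂ) (G fun i => (starRingEnd ℂ)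
      (E.w k.1 ((starRingEnd ℂ) s) i)))) = fun t => G (E.z k.1 t) := by
    funext s
    rw [Complex.conj_conj]
    rfl
  rw [h2]
  unfold kn
  have hBc : (B : ℂ) ≠ 0 := by exact_mod_cast hB0.ne'
  have hfac : ((k.2).factorial : ℂ) ≠ 0 := by exact_mod_cast (Nat.factorial_pos _).ne'
  push_cast
  rw [two_mul, pow_add]
  field_simp

end Pool.Agent.Helper57.FB
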